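import Mathlib
import Pool.Agent.W307.HT.Stm

set_option autoImplicit false

/-!
Part 1: in a cubic cyclically `k`-edge-connected graph every cycle has length at least `k`.
-/

namespace Pool.Agent.W120.HT

open SimpleGraph Pool.Agent.W307.HT

lemma acyclic_card {W : Type} [Fintype W] [Nonempty W] (F : SimpleGraph W) [Fintype F.edgeSet]
    (h : F.IsAcyclic) : F.edgeFinset.card + 1 ≤ Fintype.card W := by
  classical
  obtain ⟨T, hFT, hT, hTree⟩ :=
    (SimpleGraph.connected_top (V := W)).exists_isTree_le_of_le_of_isAcyclic le_top h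
  have h1 := hTree.card_edgeFinset
  have h2 : F.edgeFinset.card ≤ T.edgeFinset.card :=
    Finset.card_le_card (SimpleGraph.edgeFinset_mono hFT)
  omega

variable {V : Type} [Fintype V] {G : SimpleGraph V}

lemma third (h3 : ∀ v, (G.neighborSet v).ncard = 3) {c0 : V} {C : G.Walk c0 c0}
    (hC : C.IsCycle) {b : V} (hb : b ∈ C.support) :
    ∃ t, ∀ a, G.Adj b a → a ∉ C.support → a = t := by
  have h2 := hC.ncard_neighborSet_toSubgraph_eq_two hb
  have hsub : C.toSubgraph.neighborSet b ⊆ G.neighborSet b :=
    C.toSubgraph.neighborSet_subset b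
  have hd := Set.ncard_sdiff hsub (Set.toFinite _)
  rw [h2, h3 b] at hd
  obtain ⟨t, ht⟩ := Set.ncard_eq_one.mp hd
  refine ⟨t, fun a hba ha => ?_⟩
  have : a ∈ G.neighborSet b \ C.toSubgraph.neighborSet b := by
    refine ⟨hba, fun h => ha ?_⟩
    have h4 : C.toSubgraph.Adj b a := h
    exact (C.mem_verts_toSubgraph).mp (C.toSubgraph.edge_vert h4.symm)
  rw [ht] at this
  exact this

lemma card_support_le {c0 : V} (C : G.Walk c0 c0) (hC : C.IsCycle) [DecidableEq V] :
    C.support.toFinset.card = C.length := by
  have h1 : C.support.toFinset = C.support.tail.toFinset := by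
    ext v
    simp only [List.mem_toFinset]
    constructor
    · intro h
      by_cases hv : v = c0
      · subst hv
        exact SimpleGraph.Walk.end_mem_tail_support hC.not_nil
      · rw [← SimpleGraph.Walk.cons_tail_support] at h
        rcases List.mem_cons.mp h with h | h
        · exact absurd h hv
        · exact h
    · exact List.mem_of_mem_tail
  rw [h1, List.toFinset_card_of_nodup hC.support_nodup]
  simp

lemma exists_disjoint (h3 : ∀ v, (G.neighborSet v).ncard = 3) {c0 : V} (C : G.Walk c0 c0)
    (hC : C.IsCycle) (hn : 2 * C.length ≤ Fintype.card V) :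
    ∃ (v : V) (q : G.Walk v v), q.IsCycle ∧ ∀ x ∈ q.support, x ∉ C.support := by
  classical
  by_contra hcon
  push Not at hcon
  set X : Finset V := C.support.toFinset with hX
  have hXc : X.card = C.length := card_support_le C hC
  set U : Set V := {v | v ∉ C.support} with hU
  have hUfin : U.toFinset = Xᶜ := by
    ext v; simp [hU, hX]
  have hUcard : Fintype.card U = Fintype.card V - C.length := by
    rw [← Set.toFinset_card, hUfin, Finset.card_compl, hXc]
  have h3len := hC.three_le_length
  have hUpos : 0 < Fintype.card U := by omega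
  have : Nonempty U := Fintype.card_pos_iff.mp hUpos
  have hacyc : (G.induce U).IsAcyclic := by
    intro v w hw
    have hw' := (SimpleGraph.Walk.isCycle_map_iff_of_injective
      (f := (SimpleGraph.Embedding.induce (G := G) U).toHom)
      (SimpleGraph.Embedding.induce (G := G) U).injective (p := w)).mpr hw
    obtain ⟨x, hx1, hx2⟩ := hcon _ _ hw'
    rw [SimpleGraph.Walk.support_map] at hx1
    obtain ⟨y, _, rfl⟩ := List.mem_map.mp hx1
    exact y.2 hx2
  have hE := acyclic_card _ hacyc
  have hdeg := (G.induce U).sum_degrees_eq_twice_card_edges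
  have hdv : ∀ v : U, (G.induce U).degree v + (X.filter (fun b => G.Adj v.1 b)).card = 3 := by
    intro v
    have h1 := SimpleGraph.map_neighborFinset_induce (G := G) (s := U) v
    have h2 : (G.induce U).degree v = (G.neighborFinset v.1 ∩ U.toFinset).card := by
      rw [← SimpleGraph.card_neighborFinset_eq_degree, ← h1, Finset.card_map]
    rw [h2, hUfin]
    have h4 : X.filter (fun b => G.Adj v.1 b) = G.neighborFinset v.1 ∩ X := by
      ext b; simp [and_comm]
    rw [h4]
    have h5 : (G.neighborFinset v.1 ∩ Xᶜ).card + (G.neighborFinset v.1 ∩ X).card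
        = (G.neighborFinset v.1).card := by
      rw [add_comm, ← Finset.sdiff_eq_inter_compl]
      exact Finset.card_inter_add_card_sdiff _ _
    rw [h5]
    have h6 := h3 v.1
    rw [← SimpleGraph.coe_neighborFinset, Set.ncard_coe_finset] at h6
    exact h6
  have hsum : ∑ v : U, ((G.induce U).degree v + (X.filter (fun b => G.Adj v.1 b)).card)
      = 3 * Fintype.card U := by
    rw [Finset.sum_congr rfl (fun v _ => hdv v)]
    simp [mul_comm]
  rw [Finset.sum_add_distrib, hdeg] at hsum
  have hcross : ∑ v : U, (X.filter (fun b => G.Adj v.1 b)).card ≤ C.length := by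
    have e1 : ∑ v : U, (X.filter (fun b => G.Adj v.1 b)).card
        = ∑ v ∈ Xᶜ, (X.filter (fun b => G.Adj v b)).card := by
      rw [← hUfin]
      exact (Finset.sum_subtype (U.toFinset) (fun x => by simp)
        (fun v => (X.filter (fun b => G.Adj v b)).card)).symm
    rw [e1]
    have e2 := Finset.sum_card_bipartiteAbove_eq_sum_card_bipartiteBelow
      (s := Xᶜ) (t := X) (fun v b => G.Adj v b)
    have e3 : ∑ v ∈ Xᶜ, (X.filter (fun b => G.Adj v b)).card
        = ∑ b ∈ X, ((Xᶜ).filter (fun v => G.Adj v b)).card := e2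
    rw [e3, ← hXc, ← smul_eq_mul X.card 1 |>.trans (mul_one _), ← Finset.sum_const]
    apply Finset.sum_le_sum
    intro b hb
    have hb' : b ∈ C.support := by simpa [hX] using hb
    obtain ⟨t, ht⟩ := third h3 hC hb'
    apply Finset.card_le_one.mpr
    intro a ha a' ha'
    have ha1 : a ∉ C.support ∧ G.Adj a b := by simpa [hX] using ha
    have ha2 : a' ∉ C.support ∧ G.Adj a' b := by simpa [hX] using ha'
    rw [ht a ha1.2.symm ha1.1, ht a' ha2.2.symm ha2.1]
  omega

end Pool.Agent.W120.HT
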