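import Mathlib
import Pool.Agent.W307.HT.Stm
import Pool.Agent.W120.HT.Gen1

set_option autoImplicit false

/-!
Part 2: a short cycle disjoint from another cycle yields a small bond with circuits on both sides.
-/

namespace Pool.Agent.W120.HT

open SimpleGraph Pool.Agent.W307.HT

variable {V : Type} [Fintype V] {G : SimpleGraph V}

/-- the edges with both ends outside the set `X` -/
def outG (G : SimpleGraph V) (X : Set V) : SimpleGraph V where
  Adj a b := G.Adj a b ∧ a ∉ X ∧ b ∉ X
  symm := ⟨fun _ _ h => ⟨h.1.symm, h.2.2, h.2.1⟩⟩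
  loopless := ⟨fun _ h => G.loopless.irrefl _ h.1⟩

lemma bond_contra (h3 : ∀ v, (G.neighborSet v).ncard = 3) (k : ℕ)
    (hk : CyclicallyEdgeConnected k G) {c0 v0 : V} (C : G.Walk c0 c0) (hC : C.IsCycle)
    (q : G.Walk v0 v0) (hq : q.IsCycle) (hdis : ∀ x ∈ q.support, x ∉ C.support)
    (hlen : C.length < k) : False := by
  classical
  obtain ⟨hconn, -, hbond⟩ := hk
  set X : Set V := {v | v ∈ C.support} with hX
  set H := outG G X with hH
  set K : Set V := {v | H.Reachable v0 v} with hK
  have hv0X : v0 ∉ X := hdis v0 q.start_mem_support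
  have hKX : ∀ v ∈ K, v ∉ X := by
    rintro v ⟨p⟩
    have hgen : ∀ (u w : V) (p : H.Walk u w), u ∉ X → w ∉ X := by
      intro u w p
      induction p with
      | nil => exact id
      | cons h _ ih => intro _; exact ih h.2.2
    exact hgen _ _ p hv0X
  have hv0K : v0 ∈ K := SimpleGraph.Reachable.refl _
  have hclose : ∀ a b, a ∈ K → G.Adj a b → b ∉ X → b ∈ K := by
    intro a b ha hab hb
    have hadj : H.Adj a b := ⟨hab, hKX a ha, hb⟩
    exact SimpleGraph.Reachable.trans ha hadj.reachable
  have hc0X : c0 ∈ X := C.start_mem_support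
  have hc0K : c0 ∉ K := fun h => hKX c0 h hc0X
  set S : Set (Sym2 V) := cut G K with hS
  -- membership in S of an edge
  have hmemS : ∀ a b, G.Adj a b → (s(a, b) ∈ S ↔ (a ∈ K ∧ b ∉ K) ∨ (b ∈ K ∧ a ∉ K)) := by
    intro a b hab
    constructor
    · rintro ⟨a', b', ha', hb', _, he⟩
      rcases Sym2.eq_iff.mp he with ⟨rfl, rfl⟩ | ⟨rfl, rfl⟩
      · exact Or.inl ⟨ha', hb'⟩
      · exact Or.inr ⟨ha', hb'⟩
    · rintro (⟨h1, h2⟩ | ⟨h1, h2⟩)
      · exact ⟨a, b, h1, h2, hab, rfl⟩
      · exact ⟨b, a, h1, h2, hab.symm, Sym2.eq_swap⟩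
  set G' := G.deleteEdges S with hG'
  have hG'adj : ∀ a b, G.Adj a b → (a ∈ K ↔ b ∈ K) → G'.Adj a b := by
    intro a b hab h
    rw [hG', SimpleGraph.deleteEdges_adj]
    refine ⟨hab, fun hs => ?_⟩
    rcases (hmemS a b hab).mp hs with ⟨h1, h2⟩ | ⟨h1, h2⟩
    · exact h2 (h.mp h1)
    · exact h2 (h.mpr h1)
  have hG'S : ∀ a b, G'.Adj a b → G.Adj a b ∧ s(a, b) ∉ S := by
    intro a b h
    rw [hG', SimpleGraph.deleteEdges_adj] at h
    exact h
  -- K is connected in G'
  have hHG' : H ≤ G' := by
    intro a b hab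
    refine hG'adj a b hab.1 ⟨fun h => hclose a b h hab.1 hab.2.2,
      fun h => hclose b a h hab.1.symm hab.2.1⟩
  have R1 : ∀ v ∈ K, G'.Reachable v0 v := fun v hv => SimpleGraph.Reachable.mono hHG' hv
  -- the cycle C lives in G'
  have hCS : ∀ e ∈ C.edges, e ∉ S := by
    intro e
    induction e using Sym2.ind with
    | _ a b =>
      intro he hs
      have ha := C.fst_mem_support_of_mem_edges he
      have hb := C.snd_mem_support_of_mem_edges he
      rcases (hmemS a b (C.adj_of_mem_edges he)).mp hs with ⟨h1, _⟩ | ⟨h1, _⟩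
      · exact hKX a h1 ha
      · exact hKX b h1 hb
  have hqK : ∀ x ∈ q.support, x ∈ K := by
    intro x hx
    have hq' : ∀ (u w : V) (p : G.Walk u w), (∀ x ∈ p.support, x ∉ X) → u ∈ K → ∀ x ∈ p.support,
        x ∈ K := by
      intro u w p
      induction p with
      | nil => intro _ hu x hx; simp at hx; subst hx; exact hu
      | @cons u v w h p ih =>
        intro hp hu x hx
        rw [SimpleGraph.Walk.support_cons] at hx hp
        rcases List.mem_cons.mp hx with rfl | hx
        · exact hu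
        · refine ih (fun y hy => hp y (List.mem_cons_of_mem _ hy)) ?_ x hx
          exact hclose u v hu h (hp v (List.mem_cons_of_mem _ p.start_mem_support))
    exact hq' _ _ q hdis hv0K x hx
  have hqS : ∀ e ∈ q.edges, e ∉ S := by
    intro e
    induction e using Sym2.ind with
    | _ a b =>
      intro he hs
      have ha := hqK a (q.fst_mem_support_of_mem_edges he)
      have hb := hqK b (q.snd_mem_support_of_mem_edges he)
      rcases (hmemS a b (q.adj_of_mem_edges he)).mp hs with ⟨_, h1⟩ | ⟨_, h1⟩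
      · exact h1 hb
      · exact h1 ha
  have hXreach : ∀ v ∈ X, G'.Reachable v c0 := by
    intro v hv
    have h0 : v ∈ C.support := hv
    have h1 : v ∈ (C.toDeleteEdges S hCS).support := by simpa using h0
    exact ⟨((C.toDeleteEdges S hCS).takeUntil v h1).reverse⟩
  have R2 : ∀ v, v ∉ K → G'.Reachable v c0 := by
    intro v hv
    by_contra hcon
    obtain ⟨p⟩ := hconn.preconnected v c0
    obtain ⟨d, _, hd1, hd2⟩ := p.exists_boundary_dart {w | w ∉ K ∧ ¬ G'.Reachable w c0}
      ⟨hv, hcon⟩ (fun h => h.2 (SimpleGraph.Reachable.refl _))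
    have hd2' : d.snd ∈ K ∨ G'.Reachable d.snd c0 := by
      by_contra h
      push Not at h
      exact hd2 h
    by_cases hsK : d.snd ∈ K
    · by_cases hfX : d.fst ∈ X
      · exact hd1.2 (hXreach _ hfX)
      · exact hd1.1 (hclose _ _ hsK d.adj.symm hfX)
    · rcases hd2' with h | h
      · exact hsK h
      · have hadj : G'.Adj d.fst d.snd := hG'adj _ _ d.adj ⟨fun h' => absurd h' hd1.1,
          fun h' => absurd h' hsK⟩
        exact hd1.2 (hadj.reachable.trans h)
  -- S is a bond
  have hSne : S.Nonempty := by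
    obtain ⟨p⟩ := hconn.preconnected v0 c0
    obtain ⟨d, _, hd1, hd2⟩ := p.exists_boundary_dart K hv0K hc0K
    exact ⟨s(d.fst, d.snd), d.fst, d.snd, hd1, hd2, d.adj, rfl⟩
  have hSbond : IsBond G S := by
    refine ⟨hSne, ⟨K, rfl⟩, ?_⟩
    rintro T hTS hTne ⟨U', hTU⟩
    have hside : ∀ (a b : V), G'.Reachable a b → (a ∈ U' ↔ b ∈ U') := by
      intro a b ⟨p⟩
      induction p with
      | nil => exact Iff.rfl
      | @cons u v w h p ih =>
        refine Iff.trans ?_ ih
        obtain ⟨h1, h2⟩ := hG'S _ _ h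
        constructor
        · intro hu
          by_contra hv
          exact h2 (hTS.1 (hTU ▸ ⟨u, v, hu, hv, h1, rfl⟩))
        · intro hv
          by_contra hu
          exact h2 (hTS.1 (hTU ▸ ⟨v, u, hv, hu, h1.symm, Sym2.eq_swap⟩))
    have hKside : ∀ v ∈ K, (v ∈ U' ↔ v0 ∈ U') := fun v hv => (hside _ _ (R1 v hv)).symm
    have hnKside : ∀ v, v ∉ K → (v ∈ U' ↔ c0 ∈ U') := fun v hv => hside _ _ (R2 v hv)
    obtain ⟨e, he⟩ := hTne
    have heS := hTS.1 he
    obtain ⟨a, b, haK, hbK, hab, rfl⟩ := heS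
    have hsep : ¬ (v0 ∈ U' ↔ c0 ∈ U') := by
      rw [hTU] at he
      obtain ⟨a', b', ha', hb', _, he'⟩ := he
      rcases Sym2.eq_iff.mp he' with ⟨rfl, rfl⟩ | ⟨rfl, rfl⟩
      · rw [← hKside a haK, ← hnKside b hbK]
        tauto
      · rw [← hKside a haK, ← hnKside b hbK]
        tauto
    apply hTS.2
    rintro e ⟨a, b, haK, hbK, hab, rfl⟩
    rw [hTU]
    by_cases hv : v0 ∈ U'
    · have hc : c0 ∉ U' := fun h => hsep ⟨fun _ => h, fun _ => hv⟩
      exact ⟨a, b, (hKside a haK).mpr hv, fun h => hc ((hnKside b hbK).mp h), hab, rfl⟩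
    · have hc : c0 ∈ U' := by
        by_contra h
        exact hsep ⟨fun h' => absurd h' hv, fun h' => absurd h' h⟩
      exact ⟨b, a, (hnKside b hbK).mpr hc, fun h => hv ((hKside a haK).mp h), hab.symm,
        Sym2.eq_swap⟩
  have hScard : S.ncard < k := by
    refine lt_of_le_of_lt ?_ hlen
    have ht : ∀ b : V, ∃ t, b ∈ C.support → ∀ a, G.Adj b a → a ∉ C.support → a = t := by
      intro b
      by_cases hb : b ∈ C.support
      · obtain ⟨t, ht⟩ := third h3 hC hb
        exact ⟨t, fun _ => ht⟩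
      · exact ⟨b, fun h => absurd h hb⟩
    choose t ht using ht
    have hsub : S ⊆ (fun b => s(b, t b)) '' (C.support.toFinset : Set V) := by
      rintro e ⟨a, b, haK, hbK, hab, rfl⟩
      have hbX : b ∈ X := by
        by_contra h
        exact hbK (hclose a b haK hab h)
      have hbX' : b ∈ C.support := hbX
      refine ⟨b, by simpa using hbX', ?_⟩
      have := ht b hbX a hab.symm (hKX a haK)
      simp only
      rw [← this]
      exact Sym2.eq_swap
    calc S.ncard ≤ ((fun b => s(b, t b)) '' (C.support.toFinset : Set V)).ncard :=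
          Set.ncard_le_ncard hsub (Set.toFinite _)
      _ ≤ (C.support.toFinset : Set V).ncard := Set.ncard_image_le (Set.toFinite _)
      _ = C.length := by rw [Set.ncard_coe_finset, card_support_le C hC]
  refine hbond S hSbond hScard ?_
  intro c
  induction c using SimpleGraph.ConnectedComponent.ind with
  | _ v =>
    by_cases hv : v ∈ K
    · refine ⟨v0, q.toDeleteEdges S hqS, SimpleGraph.Walk.IsCycle.toDeleteEdges G S hq hqS, ?_⟩
      rw [SimpleGraph.ConnectedComponent.mem_supp_iff]
      exact SimpleGraph.ConnectedComponent.sound (R1 v hv)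
    · refine ⟨c0, C.toDeleteEdges S hCS, SimpleGraph.Walk.IsCycle.toDeleteEdges G S hC hCS, ?_⟩
      rw [SimpleGraph.ConnectedComponent.mem_supp_iff]
      exact SimpleGraph.ConnectedComponent.sound (R2 v hv).symm

lemma girth_ge (h3 : ∀ v, (G.neighborSet v).ncard = 3) (k : ℕ)
    (hk : CyclicallyEdgeConnected k G) (v : V) (p : G.Walk v v) (hp : p.IsCycle) :
    k ≤ p.length := by
  classical
  by_contra hcon
  push Not at hcon
  obtain ⟨c0, C, hC, hg⟩ := (SimpleGraph.exists_girth_eq_length (G := G)).mpr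
    (fun h => h p hp)
  have hmin : ∀ (v : V) (w : G.Walk v v), w.IsCycle → C.length ≤ w.length := by
    intro v w hw
    rw [← hg]
    exact SimpleGraph.girth_le_length hw
  obtain ⟨_, ⟨u, w, p1, p2, h1, h2, hdis⟩, _⟩ := id hk
  have hcard : p1.length + p2.length ≤ Fintype.card V := by
    rw [← card_support_le p1 h1, ← card_support_le p2 h2, ← Finset.card_union_of_disjoint]
    · exact Finset.card_le_univ _
    · rw [Finset.disjoint_left]
      intro x hx hx'
      exact hdis x (by simpa using hx) (by simpa using hx')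
  have hn : 2 * C.length ≤ Fintype.card V := by
    have := hmin _ p1 h1
    have := hmin _ p2 h2
    omega
  obtain ⟨v0, q, hq, hqd⟩ := exists_disjoint h3 C hC hn
  exact bond_contra h3 k hk C hC q hq hqd ((hmin v p hp).trans_lt hcon)

end Pool.Agent.W120.HT
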