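import Mathlib
import Pool.Agent.W307.HT.Stm
import Pool.Agent.W120.HT.Gen2

set_option autoImplicit false

/-!
Part 3: the set of `k - 1` edges.
-/

namespace Pool.Agent.W120.HT

open SimpleGraph Pool.Agent.W307.HT

variable {V : Type} [Fintype V] {G : SimpleGraph V}

omit [Fintype V] in
lemma no3 (h : ∀ (v : V) (p : G.Walk v v), p.IsCycle → 6 ≤ p.length) {a b c : V}
    (hab : G.Adj a b) (hbc : G.Adj b c) (hca : G.Adj c a) : False := by
  have h1 := h a (Walk.cons hab (Walk.cons hbc (Walk.cons hca Walk.nil))) (by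
    rw [Walk.cons_isCycle_iff]
    simp [hab.ne, hab.ne', hbc.ne, hbc.ne', hca.ne, hca.ne'])
  simp at h1

omit [Fintype V] in
lemma no4 (h : ∀ (v : V) (p : G.Walk v v), p.IsCycle → 6 ≤ p.length) {a b c d : V}
    (hab : G.Adj a b) (hbc : G.Adj b c) (hcd : G.Adj c d) (hda : G.Adj d a)
    (hac : a ≠ c) (hbd : b ≠ d) : False := by
  have h1 := h a (Walk.cons hab (Walk.cons hbc (Walk.cons hcd (Walk.cons hda Walk.nil)))) (by
    rw [Walk.cons_isCycle_iff]
    simp [hab.ne, hab.ne', hbc.ne, hbc.ne', hcd.ne, hcd.ne', hda.ne, hda.ne', hac, hac.symm, hbd,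
      hbd.symm])
  simp at h1

omit [Fintype V] in
lemma exists_third {a x b : V} (h : (G.neighborSet a).ncard = 3) (hx : G.Adj a x)
    (hb : G.Adj a b) (hne : x ≠ b) :
    ∃ y, G.Adj a y ∧ y ≠ x ∧ y ≠ b ∧ ∀ t, G.Adj a t → t = x ∨ t = b ∨ t = y := by
  obtain ⟨p, q, r, hpq, hpr, hqr, hs⟩ := Set.ncard_eq_three.mp h
  have hmem : ∀ t, G.Adj a t ↔ t = p ∨ t = q ∨ t = r := by
    intro t
    have : t ∈ G.neighborSet a ↔ t ∈ ({p, q, r} : Set V) := by rw [hs]
    simpa using this
  have hx' := (hmem x).mp hx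
  have hb' := (hmem b).mp hb
  have hp := (hmem p).mpr (Or.inl rfl)
  have hq := (hmem q).mpr (Or.inr (Or.inl rfl))
  have hr := (hmem r).mpr (Or.inr (Or.inr rfl))
  rcases hx' with rfl | rfl | rfl <;> rcases hb' with rfl | rfl | rfl
  · exact absurd rfl hne
  · exact ⟨r, hr, hpr.symm, hqr.symm, fun t ht => by rcases (hmem t).mp ht with h | h | h <;> tauto⟩
  · exact ⟨q, hq, hpq.symm, hqr, fun t ht => by rcases (hmem t).mp ht with h | h | h <;> tauto⟩
  · exact ⟨r, hr, hqr.symm, hpr.symm, fun t ht => by rcases (hmem t).mp ht with h | h | h <;> tauto⟩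
  · exact absurd rfl hne
  · exact ⟨p, hp, hpq, hpr, fun t ht => by rcases (hmem t).mp ht with h | h | h <;> tauto⟩
  · exact ⟨q, hq, hqr, hpq.symm, fun t ht => by rcases (hmem t).mp ht with h | h | h <;> tauto⟩
  · exact ⟨p, hp, hpr, hpq, fun t ht => by rcases (hmem t).mp ht with h | h | h <;> tauto⟩
  · exact absurd rfl hne

omit [Fintype V] in
lemma two_elem {s : Set V} (h : s.ncard = 2) {x y t : V} (hx : x ∈ s) (hy : y ∈ s) (hne : x ≠ y)
    (ht : t ∈ s) : t = x ∨ t = y := by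
  obtain ⟨p, q, _, rfl⟩ := Set.ncard_eq_two.mp h
  simp only [Set.mem_insert_iff, Set.mem_singleton_iff] at hx hy ht
  rcases hx with rfl | rfl <;> rcases hy with rfl | rfl <;> rcases ht with rfl | rfl <;> simp_all

omit [Fintype V] in
lemma exists_other {s : Set V} (h : s.ncard = 2) (z : V) : ∃ t ∈ s, t ≠ z := by
  obtain ⟨p, q, hpq, rfl⟩ := Set.ncard_eq_two.mp h
  by_cases hp : p = z
  · exact ⟨q, by simp, fun h => hpq (hp.trans h.symm)⟩
  · exact ⟨p, by simp, hp⟩

lemma inc_le_two [DecidableEq V] {v0 : V} (q : G.Walk v0 v0) (hq : q.IsCycle) (v : V) :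
    (q.edges.toFinset.filter (fun e => v ∈ e)).card ≤ 2 := by
  by_cases hv : v ∈ q.support
  · have h2 := hq.ncard_neighborSet_toSubgraph_eq_two hv
    have hsub : ((q.edges.toFinset.filter (fun e => v ∈ e) : Finset (Sym2 V)) : Set (Sym2 V)) ⊆
        (fun t => s(v, t)) '' (q.toSubgraph.neighborSet v) := by
      intro e he
      simp only [Finset.coe_filter, List.mem_toFinset, Set.mem_ofPred_eq] at he
      obtain ⟨he1, he2⟩ := he
      obtain ⟨t, rfl⟩ := Sym2.mem_iff_exists.mp he2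
      exact ⟨t, (q.adj_toSubgraph_iff_mem_edges).mpr he1, rfl⟩
    rw [← Set.ncard_coe_finset, ← h2]
    exact (Set.ncard_le_ncard hsub (Set.toFinite _)).trans (Set.ncard_image_le (Set.toFinite _))
  · rw [Finset.card_eq_zero.mpr]
    · omega
    · rw [Finset.filter_eq_empty_iff]
      intro e he hve
      obtain ⟨t, rfl⟩ := Sym2.mem_iff_exists.mp hve
      exact hv (q.fst_mem_support_of_mem_edges (by simpa using he))

/-- the configuration around a path `a-b-c` with outer neighbours `x, y; z; u, w` -/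
structure Conf (G : SimpleGraph V) (x a b c w y z u : V) : Prop where
  xa : G.Adj x a
  ab : G.Adj a b
  bc : G.Adj b c
  cw : G.Adj c w
  ay : G.Adj a y
  bz : G.Adj b z
  cu : G.Adj c u
  nb : ∀ t, G.Adj b t → t = a ∨ t = c ∨ t = z
  nodup : [x, a, b, c, w, y, z, u].Nodup

omit [Fintype V] in
lemma no_cycle {x a b c w y z u : V} (hc : Conf G x a b c w y z u) {v : V} (p : G.Walk v v)
    (hp : p.IsCycle) (h1 : s(x, a) ∈ p.edges) (h2 : s(a, y) ∈ p.edges) (h3 : s(b, z) ∈ p.edges)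
    (h4 : s(c, u) ∈ p.edges) (h5 : s(c, w) ∈ p.edges) : False := by
  have hnd := hc.nodup
  simp only [List.nodup_cons, List.mem_cons, List.not_mem_nil, or_false, not_or] at hnd
  obtain ⟨⟨hxa, hxb, hxc, hxw, hxy, hxz, hxu⟩, ⟨hab, hac, haw, hay, haz, hau⟩,
    ⟨hbc, hbw, hby, hbz, hbu⟩, ⟨hcw, hcy, hcz, hcu⟩, ⟨hwy, hwz, hwu⟩, ⟨hyz, hyu⟩, hzu, _, _⟩ := hnd
  have ha : a ∈ p.support := p.fst_mem_support_of_mem_edges h2
  have hb : b ∈ p.support := p.fst_mem_support_of_mem_edges h3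
  have hcs : c ∈ p.support := p.fst_mem_support_of_mem_edges h4
  have na := hp.ncard_neighborSet_toSubgraph_eq_two ha
  have nb := hp.ncard_neighborSet_toSubgraph_eq_two hb
  have nc := hp.ncard_neighborSet_toSubgraph_eq_two hcs
  have ax : x ∈ p.toSubgraph.neighborSet a :=
    (p.adj_toSubgraph_iff_mem_edges).mpr (by rw [Sym2.eq_swap]; exact h1)
  have ay : y ∈ p.toSubgraph.neighborSet a := (p.adj_toSubgraph_iff_mem_edges).mpr h2
  have cu : u ∈ p.toSubgraph.neighborSet c := (p.adj_toSubgraph_iff_mem_edges).mpr h4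
  have cw : w ∈ p.toSubgraph.neighborSet c := (p.adj_toSubgraph_iff_mem_edges).mpr h5
  obtain ⟨t, ht, htz⟩ := exists_other nb z
  have hadj : G.Adj b t := p.toSubgraph.adj_sub ht
  have ht' : p.toSubgraph.Adj b t := ht
  rcases hc.nb t hadj with rfl | rfl | rfl
  · have : b ∈ p.toSubgraph.neighborSet t := ht'.symm
    rcases two_elem na ax ay hxy this with h | h
    · exact hxb h.symm
    · exact hby h
  · have : b ∈ p.toSubgraph.neighborSet t := ht'.symm
    rcases two_elem nc cu cw (Ne.symm hwu) this with h | h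
    · exact hbu h
    · exact hbw h
  · exact htz rfl

end Pool.Agent.W120.HT
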