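import Mathlib
import Pool.Agent.W307.HT.Stm
import Pool.Agent.W120.HT.Gen3

set_option autoImplicit false

/-!
Every cubic cyclically `k`-edge-connected graph, `k ≥ 6`, has a set of `k - 1` edges that induces a
path system and is not contained in a circuit.
-/

namespace Pool.Agent.W120.HT

open SimpleGraph Pool.Agent.W307.HT

variable {V : Type} [Fintype V] {G : SimpleGraph V}

omit [Fintype V] in
/-- the configuration on a cycle of length at least six -/
lemma exists_conf (h3 : ∀ v, (G.neighborSet v).ncard = 3)
    (hg : ∀ (v : V) (p : G.Walk v v), p.IsCycle → 6 ≤ p.length) {v0 : V} (p : G.Walk v0 v0)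
    (hp : p.IsCycle) : ∃ x a b c w y z u, Conf G x a b c w y z u ∧ x ∈ p.support ∧ a ∈ p.support ∧
      b ∈ p.support ∧ c ∈ p.support ∧ w ∈ p.support := by
  have hl := hg v0 p hp
  have hinj := hp.getVert_injOn'
  have hne : ∀ i j, i < 5 → j < 5 → i ≠ j → p.getVert i ≠ p.getVert j := by
    intro i j hi hj hij h
    exact hij (hinj (show i ≤ p.length - 1 by omega) (show j ≤ p.length - 1 by omega) h)
  have hadj : ∀ i, i < 5 → G.Adj (p.getVert i) (p.getVert (i + 1)) := fun i hi =>
    p.adj_getVert_succ (by omega)
  have xa := hadj 0 (by norm_num)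
  have ab := hadj 1 (by norm_num)
  have bc := hadj 2 (by norm_num)
  have cw := hadj 3 (by norm_num)
  simp only [zero_add, Nat.reduceAdd] at xa ab bc cw
  have hxa := hne 0 1 (by norm_num) (by norm_num) (by norm_num)
  have hxb := hne 0 2 (by norm_num) (by norm_num) (by norm_num)
  have hxc := hne 0 3 (by norm_num) (by norm_num) (by norm_num)
  have hxw := hne 0 4 (by norm_num) (by norm_num) (by norm_num)
  have hab := hne 1 2 (by norm_num) (by norm_num) (by norm_num)
  have hac := hne 1 3 (by norm_num) (by norm_num) (by norm_num)
  have haw := hne 1 4 (by norm_num) (by norm_num) (by norm_num)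
  have hbc := hne 2 3 (by norm_num) (by norm_num) (by norm_num)
  have hbw := hne 2 4 (by norm_num) (by norm_num) (by norm_num)
  have hcw := hne 3 4 (by norm_num) (by norm_num) (by norm_num)
  have m0 := p.getVert_mem_support 0
  have m1 := p.getVert_mem_support 1
  have m2 := p.getVert_mem_support 2
  have m3 := p.getVert_mem_support 3
  have m4 := p.getVert_mem_support 4
  generalize p.getVert 0 = x at *
  generalize p.getVert 1 = a at *
  generalize p.getVert 2 = b at *
  generalize p.getVert 3 = c at *
  generalize p.getVert 4 = w at *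
  obtain ⟨y, hay, hyx, hyb, -⟩ := exists_third (h3 a) xa.symm ab hxb
  obtain ⟨z, hbz, hza, hzc, hbt⟩ := exists_third (h3 b) ab.symm bc hac
  obtain ⟨u, hcu, hub, huw, -⟩ := exists_third (h3 c) bc.symm cw hbw
  have hyc : y ≠ c := by rintro rfl; exact no3 hg ab bc hay.symm
  have hyw : y ≠ w := by rintro rfl; exact no4 hg ab bc cw hay.symm hac hbw
  have hyz : y ≠ z := by rintro rfl; exact no3 hg ab hbz hay.symm
  have hyu : y ≠ u := by rintro rfl; exact no4 hg ab bc hcu hay.symm hac hyb.symm
  have hzx : z ≠ x := by rintro rfl; exact no3 hg ab hbz xa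
  have hzw : z ≠ w := by rintro rfl; exact no3 hg bc cw hbz.symm
  have hzu : z ≠ u := by rintro rfl; exact no3 hg bc hcu hbz.symm
  have hux : u ≠ x := by rintro rfl; exact no4 hg ab bc hcu xa hac hub.symm
  have hua : u ≠ a := by rintro rfl; exact no3 hg ab bc hcu
  refine ⟨x, a, b, c, w, y, z, u, ⟨xa, ab, bc, cw, hay, hbz, hcu, hbt, ?_⟩, m0, m1, m2, m3, m4⟩
  simp only [List.nodup_cons, List.mem_cons, List.not_mem_nil, or_false, not_or]
  refine ⟨⟨hxa, hxb, hxc, hxw, hyx.symm, hzx.symm, hux.symm⟩,
    ⟨hab, hac, haw, hay.ne, hza.symm, hua.symm⟩,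
    ⟨hbc, hbw, hyb.symm, hbz.ne, hub.symm⟩, ⟨hcw, hyc.symm, hzc.symm, hcu.ne⟩,
    ⟨hyw.symm, hzw.symm, huw.symm⟩, ⟨hyz, hyu⟩, hzu, not_false, List.nodup_nil⟩

theorem gen : GEN := by
  intro V _ G k hk6 h3 hk
  classical
  have hgk := girth_ge h3 k hk
  have hg : ∀ (v : V) (p : G.Walk v v), p.IsCycle → 6 ≤ p.length :=
    fun v p hp => hk6.trans (hgk v p hp)
  obtain ⟨_, ⟨u1, u2, p1, p2, hp1, hp2, hdis⟩, _⟩ := id hk
  obtain ⟨x, a, b, c, w, y, z, u, hconf, mx, ma, mb, mc, mw⟩ := exists_conf h3 hg p1 hp1
  have hx2 := hdis x mx
  have ha2 := hdis a ma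
  have hb2 := hdis b mb
  have hc2 := hdis c mc
  have hw2 := hdis w mw
  have hnd := hconf.nodup
  simp only [List.nodup_cons, List.mem_cons, List.not_mem_nil, or_false, not_or] at hnd
  obtain ⟨⟨hxa, hxb, hxc, hxw, hxy, hxz, hxu⟩, ⟨hab, hac, haw, hay, haz, hau⟩,
    ⟨hbc, hbw, hby, hbz, hbu⟩, ⟨hcw, hcy, hcz, hcu⟩, ⟨hwy, hwz, hwu⟩, ⟨hyz, hyu⟩, hzu, _, _⟩ := hnd
  set E := p2.edges.toFinset with hE
  have hEc : k ≤ E.card := by
    rw [hE, List.toFinset_card_of_nodup hp2.edges_nodup, Walk.length_edges]
    exact hgk _ p2 hp2
  set F := E.filter (fun e => y ∉ e ∧ z ∉ e ∧ u ∉ e) with hF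
  have hFc : k - 6 ≤ F.card := by
    have h1 : E ⊆ F ∪ (E.filter (fun e => y ∈ e) ∪ (E.filter (fun e => z ∈ e) ∪
        E.filter (fun e => u ∈ e))) := by
      intro e he
      simp only [hF, Finset.mem_union, Finset.mem_filter]
      tauto
    have h2 := Finset.card_le_card h1
    have h3' := Finset.card_union_le F (E.filter (fun e => y ∈ e) ∪ (E.filter (fun e => z ∈ e) ∪
        E.filter (fun e => u ∈ e)))
    have h4 := Finset.card_union_le (E.filter (fun e => y ∈ e)) (E.filter (fun e => z ∈ e) ∪
        E.filter (fun e => u ∈ e))
    have h5 := Finset.card_union_le (E.filter (fun e => z ∈ e)) (E.filter (fun e => u ∈ e))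
    have i1 := inc_le_two p2 hp2 y
    have i2 := inc_le_two p2 hp2 z
    have i3 := inc_le_two p2 hp2 u
    rw [← hE] at i1 i2 i3
    omega
  obtain ⟨Sx, hSxF, hSxc⟩ := Finset.exists_subset_card_eq hFc
  have hSx : ∀ e ∈ Sx, e ∈ p2.edges ∧ y ∉ e ∧ z ∉ e ∧ u ∉ e := by
    intro e he
    have := hSxF he
    simpa [hF, hE] using this
  have hout : ∀ v, v ∉ p2.support → ∀ e ∈ p2.edges, v ∉ e := by
    intro v hv e he hve
    obtain ⟨t, rfl⟩ := Sym2.mem_iff_exists.mp hve
    exact hv (p2.fst_mem_support_of_mem_edges he)
  set S0 : Finset (Sym2 V) := {s(x, a), s(a, y), s(b, z), s(c, u), s(c, w)} with hS0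
  have hS0c : S0.card = 5 := by
    rw [hS0, Finset.card_insert_of_notMem, Finset.card_insert_of_notMem,
      Finset.card_insert_of_notMem, Finset.card_insert_of_notMem, Finset.card_singleton]
    all_goals
      simp only [Finset.mem_insert, Finset.mem_singleton, Sym2.eq_iff, not_or, not_and]
      try tauto
  have hdisj : Disjoint S0 Sx := by
    rw [Finset.disjoint_left]
    intro e he he'
    obtain ⟨h1, _⟩ := hSx e he'
    have qa := hout a ha2 e h1
    have qb := hout b hb2 e h1
    have qc := hout c hc2 e h1
    simp only [hS0, Finset.mem_insert, Finset.mem_singleton] at he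
    rcases he with rfl | rfl | rfl | rfl | rfl <;> simp at qa qb qc
  refine ⟨S0 ∪ Sx, ?_, ?_, ⟨?_, ?_⟩, ?_⟩
  · intro e he
    simp only [Finset.coe_union, Set.mem_union, Finset.mem_coe] at he
    rcases he with he | he
    · simp only [hS0, Finset.mem_insert, Finset.mem_singleton] at he
      rcases he with rfl | rfl | rfl | rfl | rfl
      · exact hconf.xa
      · exact hconf.ay
      · exact hconf.bz
      · exact hconf.cu
      · exact hconf.cw
    · exact p2.edges_subset_edgeSet (hSx e he).1
  · rw [Finset.card_union_of_disjoint hdisj, hS0c, hSxc]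
    omega
  · intro v r hr
    have hsub : ∀ e ∈ r.edges, e ∈ S0 ∪ Sx := by
      intro e he
      have := r.edges_subset_edgeSet he
      rw [SimpleGraph.edgeSet_fromEdgeSet] at this
      exact_mod_cast this.1
    have hle : SimpleGraph.fromEdgeSet ((S0 ∪ Sx : Finset (Sym2 V)) : Set (Sym2 V)) ≤ G := by
      intro i j hij
      rw [SimpleGraph.fromEdgeSet_adj] at hij
      have he := hij.1
      simp only [Finset.coe_union, Set.mem_union, Finset.mem_coe] at he
      rcases he with he | he
      · rw [← SimpleGraph.mem_edgeSet]
        simp only [hS0, Finset.mem_insert, Finset.mem_singleton] at he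
        rcases he with h | h | h | h | h <;> rw [h]
        · exact hconf.xa
        · exact hconf.ay
        · exact hconf.bz
        · exact hconf.cu
        · exact hconf.cw
      · exact p2.edges_subset_edgeSet (hSx _ he).1
    have hcyc : (r.mapLe hle).IsCycle := hr.mapLe hle
    have hlen := hgk _ _ hcyc
    rw [Walk.length_mapLe] at hlen
    have h1 : r.edges.toFinset ⊆ S0 ∪ Sx := by
      intro e he
      exact hsub e (by simpa using he)
    have h2 := Finset.card_le_card h1
    rw [List.toFinset_card_of_nodup hr.edges_nodup, Walk.length_edges,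
      Finset.card_union_of_disjoint hdisj, hS0c, hSxc] at h2
    omega
  · intro v
    have key : ((S0 ∪ Sx).filter (fun e => v ∈ e)).card ≤ 2 := by
      rw [Finset.filter_union]
      by_cases hv : v ∈ p2.support ∧ v ≠ y ∧ v ≠ z ∧ v ≠ u
      · obtain ⟨hv, hvy, hvz, hvu⟩ := hv
        have e1 : S0.filter (fun e => v ∈ e) = ∅ := by
          rw [Finset.filter_eq_empty_iff]
          intro e he hve
          simp only [hS0, Finset.mem_insert, Finset.mem_singleton] at he
          rcases he with rfl | rfl | rfl | rfl | rfl <;> rw [Sym2.mem_iff] at hve <;>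
            rcases hve with rfl | rfl <;>
            first
            | exact hx2 hv
            | exact ha2 hv
            | exact hb2 hv
            | exact hc2 hv
            | exact hw2 hv
            | exact hvy rfl
            | exact hvz rfl
            | exact hvu rfl
        rw [e1, Finset.empty_union]
        refine (Finset.card_le_card ?_).trans (inc_le_two p2 hp2 v)
        intro e he
        simp only [Finset.mem_filter, List.mem_toFinset] at he ⊢
        exact ⟨(hSx e he.1).1, he.2⟩
      · have e2 : Sx.filter (fun e => v ∈ e) = ∅ := by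
          rw [Finset.filter_eq_empty_iff]
          intro e he hve
          obtain ⟨h1, h2, h3', h4⟩ := hSx e he
          by_cases hvs : v ∈ p2.support
          · apply hv
            exact ⟨hvs, fun h => h2 (h ▸ hve), fun h => h3' (h ▸ hve), fun h => h4 (h ▸ hve)⟩
          · exact hout v hvs e h1 hve
        rw [e2, Finset.union_empty]
        by_cases hva : v = a
        · refine (Finset.card_le_card (t := {s(x, a), s(a, y)}) ?_).trans Finset.card_le_two
          intro e he
          simp only [hS0, Finset.mem_filter, Finset.mem_insert, Finset.mem_singleton] at he ⊢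
          obtain ⟨rfl | rfl | rfl | rfl | rfl, hve⟩ := he
          · exact Or.inl rfl
          · exact Or.inr rfl
          · exfalso
            rw [Sym2.mem_iff, hva] at hve
            rcases hve with h | h
            · exact hab h
            · exact haz h
          · exfalso
            rw [Sym2.mem_iff, hva] at hve
            rcases hve with h | h
            · exact hac h
            · exact hau h
          · exfalso
            rw [Sym2.mem_iff, hva] at hve
            rcases hve with h | h
            · exact hac h
            · exact haw h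
        · by_cases hvc : v = c
          · refine (Finset.card_le_card (t := {s(c, u), s(c, w)}) ?_).trans Finset.card_le_two
            intro e he
            simp only [hS0, Finset.mem_filter, Finset.mem_insert, Finset.mem_singleton] at he ⊢
            obtain ⟨rfl | rfl | rfl | rfl | rfl, hve⟩ := he
            · exfalso
              rw [Sym2.mem_iff, hvc] at hve
              rcases hve with h | h
              · exact hxc h.symm
              · exact hac h.symm
            · exfalso
              rw [Sym2.mem_iff, hvc] at hve
              rcases hve with h | h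
              · exact hac h.symm
              · exact hcy h
            · exfalso
              rw [Sym2.mem_iff, hvc] at hve
              rcases hve with h | h
              · exact hbc h.symm
              · exact hcz h
            · exact Or.inl rfl
            · exact Or.inr rfl
          · refine le_trans (Finset.card_le_one.mpr ?_) one_le_two
            have hone : ∀ e, e ∈ S0.filter (fun e => v ∈ e) →
                (e = s(x, a) ∧ v = x) ∨ (e = s(a, y) ∧ v = y) ∨ (e = s(b, z) ∧ v = b) ∨
                (e = s(b, z) ∧ v = z) ∨ (e = s(c, u) ∧ v = u) ∨ (e = s(c, w) ∧ v = w) := by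
              intro e he
              simp only [hS0, Finset.mem_filter, Finset.mem_insert, Finset.mem_singleton] at he
              obtain ⟨h | h | h | h | h, hve⟩ := he <;> rw [h, Sym2.mem_iff] at hve <;>
                rcases hve with hve | hve
              · exact Or.inl ⟨h, hve⟩
              · exact absurd hve hva
              · exact absurd hve hva
              · exact Or.inr (Or.inl ⟨h, hve⟩)
              · exact Or.inr (Or.inr (Or.inl ⟨h, hve⟩))
              · exact Or.inr (Or.inr (Or.inr (Or.inl ⟨h, hve⟩)))
              · exact absurd hve hvc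
              · exact Or.inr (Or.inr (Or.inr (Or.inr (Or.inl ⟨h, hve⟩))))
              · exact absurd hve hvc
              · exact Or.inr (Or.inr (Or.inr (Or.inr (Or.inr ⟨h, hve⟩))))
            intro e he e' he'
            rcases hone e he with ⟨h1, hv1⟩ | ⟨h1, hv1⟩ | ⟨h1, hv1⟩ | ⟨h1, hv1⟩ | ⟨h1, hv1⟩ |
                ⟨h1, hv1⟩ <;>
              rcases hone e' he' with ⟨h2, hv2⟩ | ⟨h2, hv2⟩ | ⟨h2, hv2⟩ | ⟨h2, hv2⟩ | ⟨h2, hv2⟩ |
                ⟨h2, hv2⟩ <;>
              first
              | exact h1.trans h2.symm
              | exact absurd (hv1.symm.trans hv2) hxy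
              | exact absurd (hv2.symm.trans hv1) hxy
              | exact absurd (hv1.symm.trans hv2) hxb
              | exact absurd (hv2.symm.trans hv1) hxb
              | exact absurd (hv1.symm.trans hv2) hxz
              | exact absurd (hv2.symm.trans hv1) hxz
              | exact absurd (hv1.symm.trans hv2) hxu
              | exact absurd (hv2.symm.trans hv1) hxu
              | exact absurd (hv1.symm.trans hv2) hxw
              | exact absurd (hv2.symm.trans hv1) hxw
              | exact absurd (hv1.symm.trans hv2) hby
              | exact absurd (hv2.symm.trans hv1) hby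
              | exact absurd (hv1.symm.trans hv2) hbu
              | exact absurd (hv2.symm.trans hv1) hbu
              | exact absurd (hv1.symm.trans hv2) hbw
              | exact absurd (hv2.symm.trans hv1) hbw
              | exact absurd (hv1.symm.trans hv2) hyz
              | exact absurd (hv2.symm.trans hv1) hyz
              | exact absurd (hv1.symm.trans hv2) hyu
              | exact absurd (hv2.symm.trans hv1) hyu
              | exact absurd (hv1.symm.trans hv2) hwy
              | exact absurd (hv2.symm.trans hv1) hwy
              | exact absurd (hv1.symm.trans hv2) hwz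
              | exact absurd (hv2.symm.trans hv1) hwz
              | exact absurd (hv1.symm.trans hv2) hwu
              | exact absurd (hv2.symm.trans hv1) hwu
              | exact absurd (hv1.symm.trans hv2) hzu
              | exact absurd (hv2.symm.trans hv1) hzu
    have hco : ((((S0 ∪ Sx).filter (fun e => v ∈ e)) : Finset (Sym2 V)) : Set (Sym2 V)) =
        {e ∈ ((S0 ∪ Sx : Finset (Sym2 V)) : Set (Sym2 V)) | v ∈ e} := by
      ext e
      simp
    rw [← hco, Set.ncard_coe_finset]
    exact key
  · intro v p hp hall
    have hin : ∀ e ∈ S0, e ∈ p.edges := fun e he => hall e (Finset.mem_union_left _ he)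
    exact no_cycle hconf p hp (hin _ (by simp [hS0])) (hin _ (by simp [hS0]))
      (hin _ (by simp [hS0])) (hin _ (by simp [hS0])) (hin _ (by simp [hS0]))

end Pool.Agent.W120.HT
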